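import Pool.Agent.Run7.h638.WR.Iface

/-!
# Piece C2 of the project WR: the composition rule is primitive recursive
-/

set_option autoImplicit false

namespace Pool.Agent.Run7.h404.WR

open Pool.Agent.Run7.h638.WR

section gen

variable {α : Type} [Primcodable α]

theorem pimp {p q : α → Prop} (hp : PrimrecPred p) (hq : PrimrecPred q) :
    PrimrecPred (fun a => p a → q a) :=
  (hp.not.or hq).of_eq fun a => by tauto

theorem pite {c p q : α → Prop} [DecidablePred c] (hc : PrimrecPred c) (hp : PrimrecPred p)
    (hq : PrimrecPred q) : PrimrecPred (fun a => if c a then p a else q a) :=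
  ((hc.and hp).or (hc.not.and hq)).of_eq fun a => by
    by_cases h : c a <;> simp [h]

theorem peq {β : Type} [Primcodable β] {f g : α → β} (hf : Primrec f)
    (hg : Primrec g) : PrimrecPred (fun a => f a = g a) :=
  Primrec.eq.comp hf hg

theorem peqc {β : Type} [Primcodable β] {f : α → β} (hf : Primrec f) (b : β) :
    PrimrecPred (fun a => f a = b) :=
  peq hf (Primrec.const b)

theorem prim_kind {f g : α → ℕ} (hf : Primrec f) (hg : Primrec g) :
    Primrec (fun a => kind (f a) (g a)) := by
  unfold kind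
  refine Primrec.ite ?_ (Primrec.const 1) (Primrec.ite ?_ (Primrec.const 2)
    (Primrec.ite ?_ (Primrec.const 3) (Primrec.const 0)))
  · exact ((peqc hf 0).and ((Primrec.nat_le.comp (Primrec.const 1) hg).and
      (Primrec.nat_le.comp hg (Primrec.const 3)))).or ((peqc hf 4).and (peqc hg 5))
  · exact (peqc hf 1).and ((peqc hg 2).or (peqc hg 3))
  · exact (Primrec.nat_le.comp hf (Primrec.const 3)).and ((peqc hg 4).or (peqc hg 5))

theorem prim_rule {i j k : α → ℕ} {u v w : α → Win} (hi : Primrec i) (hj : Primrec j)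
    (hk : Primrec k) (hu : Primrec u) (hv : Primrec v) (hw : Primrec w) :
    PrimrecPred (fun a => rule (i a) (j a) (k a) (u a) (v a) (w a)) := by
  have kij := prim_kind hi hj
  have kjk := prim_kind hj hk
  have u1 : Primrec (fun a => (u a).1) := Primrec.fst.comp hu
  have u2 : Primrec (fun a => (u a).2) := Primrec.snd.comp hu
  have v1 : Primrec (fun a => (v a).1) := Primrec.fst.comp hv
  have w1 : Primrec (fun a => (w a).1) := Primrec.fst.comp hw
  have w2 : Primrec (fun a => (w a).2) := Primrec.snd.comp hw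
  have u11 : Primrec (fun a => (u a).1.1) := Primrec.fst.comp u1
  have u21 : Primrec (fun a => (u a).2.1) := Primrec.fst.comp u2
  have w11 : Primrec (fun a => (w a).1.1) := Primrec.fst.comp w1
  have w12 : Primrec (fun a => (w a).1.2) := Primrec.snd.comp w1
  have w21 : Primrec (fun a => (w a).2.1) := Primrec.fst.comp w2
  have w22 : Primrec (fun a => (w a).2.2) := Primrec.snd.comp w2
  unfold rule
  refine pite ((peqc kij 1).and (peqc kjk 2)) ?_ (pite ((peqc kij 1).and (peqc kjk 3)) ?_
    (pite ((peqc kij 2).and (peqc kjk 3)) ?_ (pite ((peqc kij 3).and (peqc kjk 1)) ?_ ?_)))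
  · exact pite (peqc hv (lb 0)) (peq hw hu) ((peqc hu (lb 2)).or (peq hw hu).not)
  · exact pite (peqc hu (lb 0)) (peq w1 v1) (pimp (peqc hu (lb 1)) (peq w2 v1))
  · exact pimp (peqc hu (lb 0)) (peq hw hv)
  · exact pite (peqc hv (lb 0)) ((peq w11 u11).and (peq w21 u21))
      (pimp (peqc hv (lb 1)) ((peq w12 u11).and (peq w22 u21)))
  · exact (peqc (Primrec.const (0 : ℕ)) (0 : ℕ)).of_eq fun a => by simp

end gen

theorem t_C2 : C2 := by
  unfold C2 mul
  have a : Primrec (fun t : Atom × (Atom × Atom) => t.1) := Primrec.fst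
  have b : Primrec (fun t : Atom × (Atom × Atom) => t.2.1) := Primrec.fst.comp Primrec.snd
  have c : Primrec (fun t : Atom × (Atom × Atom) => t.2.2) := Primrec.snd.comp Primrec.snd
  have a1 : Primrec (fun t : Atom × (Atom × Atom) => t.1.1) := Primrec.fst.comp a
  have a2 : Primrec (fun t : Atom × (Atom × Atom) => t.1.2) := Primrec.snd.comp a
  have b1 : Primrec (fun t : Atom × (Atom × Atom) => t.2.1.1) := Primrec.fst.comp b
  have b2 : Primrec (fun t : Atom × (Atom × Atom) => t.2.1.2) := Primrec.snd.comp b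
  have c1 : Primrec (fun t : Atom × (Atom × Atom) => t.2.2.1) := Primrec.fst.comp c
  have c2 : Primrec (fun t : Atom × (Atom × Atom) => t.2.2.2) := Primrec.snd.comp c
  have a11 : Primrec (fun t : Atom × (Atom × Atom) => t.1.1.1) := Primrec.fst.comp a1
  have a12 : Primrec (fun t : Atom × (Atom × Atom) => t.1.1.2) := Primrec.snd.comp a1
  have b11 : Primrec (fun t : Atom × (Atom × Atom) => t.2.1.1.1) := Primrec.fst.comp b1
  have b12 : Primrec (fun t : Atom × (Atom × Atom) => t.2.1.1.2) := Primrec.snd.comp b1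
  exact (peq a12 b11).and ((peq c1 (a11.pair b12)).and (prim_rule a11 a12 b12 a2 b2 c2))

end Pool.Agent.Run7.h404.WR
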