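import Pool.Agent.Run7.h638.WR.Iface

/-!
# Piece C3 of the project WR: the list of sublists is primitive recursive
-/

set_option autoImplicit false

namespace Pool.Agent.Run7.h404.WR

open Pool.Agent.Run7.h638.WR

theorem t_C3 : C3 := by
  intro α _
  have hg : Primrec₂ (fun (_ : List α) (p : α × List (List α)) => p.2 ++ p.2.map (fun l => p.1 :: l)) := by
    have h2 : Primrec (fun q : List α × (α × List (List α)) => q.2.2) :=
      Primrec.snd.comp Primrec.snd
    have h1 : Primrec (fun q : (List α × (α × List (List α))) × List α => q.1.2.1) :=
      Primrec.fst.comp (Primrec.snd.comp Primrec.fst)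
    have hm : Primrec (fun q : List α × (α × List (List α)) => q.2.2.map (fun l => q.2.1 :: l)) :=
      Primrec.list_map h2 (Primrec.list_cons.comp h1 Primrec.snd)
    exact Primrec.list_append.comp h2 hm
  have h : Primrec (fun l : List α => l.foldr
      (fun a s => s ++ s.map (fun l => a :: l)) ([[]] : List (List α))) :=
    Primrec.list_foldr Primrec.id (Primrec.const [[]]) hg
  refine h.of_eq fun l => ?_
  induction l with
  | nil => simp
  | cons a l ih => rw [List.foldr_cons, ih, List.sublists'_cons]

end Pool.Agent.Run7.h404.WR
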